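import Pool.Agent.U50.MC.Stm

/-!
Project MC, package UNIF: continuous functions on a nilmanifold are bounded and polynomially
uniformly continuous in the coordinates.
-/

set_option autoImplicit false

namespace Pool.Agent.U103.MC

open Pool.Agent.U50.MC MvPolynomial

theorem poly_bound {σ : Type} (p : MvPolynomial σ ℝ) : ∃ C D : ℕ, ∀ M : ℝ, 1 ≤ M →
    ∀ z z' : σ → ℝ, (∀ v, |z v| ≤ M) → (∀ v, |z' v| ≤ M) →
    |eval z' p| ≤ C * M ^ D ∧ ∀ t : ℝ, 0 ≤ t → (∀ v, |z v - z' v| ≤ t) →
      |eval z p - eval z' p| ≤ C * M ^ D * t := by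
  induction p using MvPolynomial.induction_on with
  | C a =>
    refine ⟨⌈|a|⌉₊, 0, fun M hM z z' hz hz' => ⟨?_, fun t ht h => ?_⟩⟩
    · rw [eval_C, pow_zero, mul_one]
      exact Nat.le_ceil _
    · rw [eval_C, eval_C, sub_self, abs_zero, pow_zero, mul_one]
      positivity
  | add p q hp hq =>
    obtain ⟨C1, D1, h1⟩ := hp
    obtain ⟨C2, D2, h2⟩ := hq
    refine ⟨C1 + C2, D1 + D2, fun M hM z z' hz hz' => ?_⟩
    obtain ⟨a1, b1⟩ := h1 M hM z z' hz hz'
    obtain ⟨a2, b2⟩ := h2 M hM z z' hz hz'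
    have e1 : M ^ D1 ≤ M ^ (D1 + D2) := pow_le_pow_right₀ hM (by omega)
    have e2 : M ^ D2 ≤ M ^ (D1 + D2) := pow_le_pow_right₀ hM (by omega)
    refine ⟨?_, fun t ht h => ?_⟩
    · rw [map_add]
      push_cast
      calc |eval z' p + eval z' q| ≤ |eval z' p| + |eval z' q| := abs_add_le _ _
        _ ≤ C1 * M ^ D1 + C2 * M ^ D2 := add_le_add a1 a2
        _ ≤ C1 * M ^ (D1 + D2) + C2 * M ^ (D1 + D2) := by gcongr
        _ = _ := by ring
    · rw [map_add, map_add]
      push_cast
      calc |eval z p + eval z q - (eval z' p + eval z' q)|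
          = |(eval z p - eval z' p) + (eval z q - eval z' q)| := by
            congr 1
            ring
        _ ≤ |eval z p - eval z' p| + |eval z q - eval z' q| := abs_add_le _ _
        _ ≤ C1 * M ^ D1 * t + C2 * M ^ D2 * t := add_le_add (b1 t ht h) (b2 t ht h)
        _ ≤ C1 * M ^ (D1 + D2) * t + C2 * M ^ (D1 + D2) * t := by gcongr
        _ = _ := by ring
  | mul_X p n hp =>
    obtain ⟨C1, D1, h1⟩ := hp
    refine ⟨2 * C1, D1 + 1, fun M hM z z' hz hz' => ?_⟩
    obtain ⟨a1, b1⟩ := h1 M hM z z' hz hz'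
    have hM0 : 0 ≤ M := by linarith
    have hC : (0 : ℝ) ≤ C1 * M ^ D1 := by positivity
    refine ⟨?_, fun t ht h => ?_⟩
    · rw [map_mul, eval_X, abs_mul]
      push_cast
      calc |eval z' p| * |z' n| ≤ (C1 * M ^ D1) * M :=
            mul_le_mul a1 (hz' n) (abs_nonneg _) hC
        _ ≤ 2 * ((C1 * M ^ D1) * M) := by
            have : 0 ≤ (C1 * M ^ D1) * M := by positivity
            linarith
        _ = _ := by ring
    · rw [map_mul, map_mul, eval_X, eval_X]
      push_cast
      calc |eval z p * z n - eval z' p * z' n|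
          = |(eval z p - eval z' p) * z n + eval z' p * (z n - z' n)| := by
            congr 1
            ring
        _ ≤ |(eval z p - eval z' p) * z n| + |eval z' p * (z n - z' n)| := abs_add_le _ _
        _ = |eval z p - eval z' p| * |z n| + |eval z' p| * |z n - z' n| := by
            rw [abs_mul, abs_mul]
        _ ≤ (C1 * M ^ D1 * t) * M + (C1 * M ^ D1) * t := by
            apply add_le_add
            · exact mul_le_mul (b1 t ht h) (hz n) (abs_nonneg _) (by positivity)
            · exact mul_le_mul a1 (h n) (abs_nonneg _) hC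
        _ ≤ (C1 * M ^ D1 * t) * M + (C1 * M ^ D1 * t) * M := by
            have : (C1 * M ^ D1) * t ≤ (C1 * M ^ D1 * t) * M := by
              have h0 : 0 ≤ (C1 * M ^ D1) * t := by positivity
              nlinarith
            linarith
        _ = _ := by ring

theorem eval_congr_lt {d : ℕ} (G : Nil d) (i : Fin d) {x x' y y' : Fin d → ℝ}
    (hx : ∀ j < i, x j = x' j) (hy : ∀ j < i, y j = y' j) :
    eval (Sum.elim x y) (G.P i) = eval (Sum.elim x' y') (G.P i) := by
  apply MvPolynomial.eval₂Hom_congr' rfl _ rfl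
  intro v hv _
  obtain ⟨j, hj, h | h⟩ := G.tri i v hv
  · rw [h]
    exact hx j hj
  · rw [h]
    exact hy j hj

theorem op_apply {d : ℕ} (G : Nil d) (x y : Fin d → ℝ) (i : Fin d) :
    G.op x y i = x i + y i + eval (Sum.elim x y) (G.P i) := rfl

theorem eval_zero_left {d : ℕ} (G : Nil d) (y : Fin d → ℝ) (i : Fin d) :
    eval (Sum.elim 0 y) (G.P i) = 0 := by
  have h := congrFun (G.zero_op y) i
  have h2 := op_apply G 0 y i
  unfold Nil.op at h2
  rw [h] at h2
  simp only [Pi.zero_apply, zero_add] at h2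
  linarith

/-- the box is a fundamental domain -/
theorem exists_int {d : ℕ} (G : Nil d) (x : Fin d → ℝ) :
    ∃ m : Fin d → ℤ, ∀ i, 0 ≤ G.op x (fun i => (m i : ℝ)) i ∧
      G.op x (fun i => (m i : ℝ)) i ≤ 1 := by
  have key : ∀ k : ℕ, ∃ m : Fin d → ℤ, ∀ i : Fin d, i.val < k →
      0 ≤ G.op x (fun i => (m i : ℝ)) i ∧ G.op x (fun i => (m i : ℝ)) i ≤ 1 := by
    intro k
    induction k with
    | zero => exact ⟨0, fun i hi => absurd hi (Nat.not_lt_zero _)⟩
    | succ k ih =>
      obtain ⟨m, hm⟩ := ih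
      by_cases hk : k < d
      · obtain ⟨κ, hκ⟩ : ∃ κ : Fin d, κ.val = k := ⟨⟨k, hk⟩, rfl⟩
        obtain ⟨s, hs⟩ : ∃ s : ℝ, s = x κ + eval (Sum.elim x (fun i => (m i : ℝ))) (G.P κ) :=
          ⟨_, rfl⟩
        refine ⟨Function.update m κ (-⌊s⌋), fun i hi => ?_⟩
        have hle : i ≤ κ := by
          rw [Fin.le_def, hκ]
          omega
        have hev : eval (Sum.elim x (fun j => ((Function.update m κ (-⌊s⌋) j : ℤ) : ℝ))) (G.P i) =
            eval (Sum.elim x (fun j => (m j : ℝ))) (G.P i) := by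
          apply eval_congr_lt G i (fun _ _ => rfl)
          intro j hj
          rw [Function.update_of_ne (lt_of_lt_of_le hj hle).ne]
        rw [op_apply, hev]
        rcases lt_or_eq_of_le hle with h | h
        · have h1 := hm i (by rw [← hκ]; exact h)
          rw [op_apply] at h1
          rw [Function.update_of_ne h.ne]
          exact h1
        · subst h
          rw [Function.update_self]
          push_cast
          have h1 := Int.floor_le s
          have h2 := Int.lt_floor_add_one s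
          constructor
          · linarith
          · linarith
      · exact ⟨m, fun i hi => hm i (by have := i.2; omega)⟩
  obtain ⟨m, hm⟩ := key d
  exact ⟨m, fun i => hm i i.2⟩

/-- left division -/
theorem exists_left {d : ℕ} (G : Nil d) (y y' : Fin d → ℝ) :
    ∃ u : Fin d → ℝ, ∀ i, u i = y' i - y i - eval (Sum.elim u y) (G.P i) := by
  have key : ∀ k : ℕ, ∃ u : Fin d → ℝ, ∀ i : Fin d, i.val < k →
      u i = y' i - y i - eval (Sum.elim u y) (G.P i) := by
    intro k
    induction k with
    | zero => exact ⟨0, fun i hi => absurd hi (Nat.not_lt_zero _)⟩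
    | succ k ih =>
      obtain ⟨u, hu⟩ := ih
      by_cases hk : k < d
      · obtain ⟨κ, hκ⟩ : ∃ κ : Fin d, κ.val = k := ⟨⟨k, hk⟩, rfl⟩
        refine ⟨Function.update u κ (y' κ - y κ - eval (Sum.elim u y) (G.P κ)), fun i hi => ?_⟩
        have hle : i ≤ κ := by
          rw [Fin.le_def, hκ]
          omega
        have hev : eval (Sum.elim (Function.update u κ
            (y' κ - y κ - eval (Sum.elim u y) (G.P κ))) y) (G.P i) =
            eval (Sum.elim u y) (G.P i) := by
          refine eval_congr_lt G i ?_ (fun _ _ => rfl)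
          intro j hj
          rw [Function.update_of_ne (lt_of_lt_of_le hj hle).ne]
        rw [hev]
        rcases lt_or_eq_of_le hle with h | h
        · have h1 := hu i (by rw [← hκ]; exact h)
          rw [Function.update_of_ne h.ne]
          exact h1
        · subst h
          rw [Function.update_self]
      · exact ⟨u, fun i hi => hu i (by have := i.2; omega)⟩
  obtain ⟨u, hu⟩ := key d
  exact ⟨u, fun i => hu i i.2⟩

theorem cont_op {d : ℕ} (G : Nil d) :
    Continuous fun p : (Fin d → ℝ) × (Fin d → ℝ) => G.op p.1 p.2 := by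
  apply continuous_pi
  intro i
  simp only [op_apply]
  have h1 : Continuous fun p : (Fin d → ℝ) × (Fin d → ℝ) =>
      (Sum.elim p.1 p.2 : Fin d ⊕ Fin d → ℝ) := by
    apply continuous_pi
    rintro (j | j)
    · exact (continuous_apply j).comp continuous_fst
    · exact (continuous_apply j).comp continuous_snd
  have h2 : Continuous fun p : (Fin d → ℝ) × (Fin d → ℝ) =>
      eval (Sum.elim p.1 p.2) (G.P i) := (MvPolynomial.continuous_eval (G.P i)).comp h1
  exact (((continuous_apply i).comp continuous_fst).add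
    ((continuous_apply i).comp continuous_snd)).add h2

/-- left uniform continuity -/
theorem left_unif {d : ℕ} (G : Nil d) (F : (Fin d → ℝ) → ℂ) (hF : G.IsFun F) (ε : ℝ)
    (hε : 0 < ε) : ∃ δ : ℝ, 0 < δ ∧ ∀ x u : Fin d → ℝ, (∀ k, |u k| ≤ δ) →
      ‖F (G.op u x) - F x‖ ≤ ε := by
  have hK : IsCompact ((Set.Icc (-1 : Fin d → ℝ) 1) ×ˢ (Set.Icc (0 : Fin d → ℝ) 1)) :=
    isCompact_Icc.prod isCompact_Icc
  have hc : ContinuousOn (fun p : (Fin d → ℝ) × (Fin d → ℝ) => F (G.op p.1 p.2))
      ((Set.Icc (-1 : Fin d → ℝ) 1) ×ˢ (Set.Icc (0 : Fin d → ℝ) 1)) :=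
    (hF.1.comp (cont_op G)).continuousOn
  have hu := hK.uniformContinuousOn_of_continuous hc
  rw [Metric.uniformContinuousOn_iff_le] at hu
  obtain ⟨δ, hδ, h⟩ := hu ε hε
  refine ⟨min δ 1, lt_min hδ one_pos, fun x u hu => ?_⟩
  obtain ⟨m, hm⟩ := exists_int G x
  have e1 : F x = F (G.op 0 (G.op x (fun i => (m i : ℝ)))) := by
    have h0 : G.op 0 (G.op x (fun i => (m i : ℝ))) = G.op x (fun i => (m i : ℝ)) := G.zero_op _
    rw [h0, hF.2]
  have e2 : F (G.op u x) = F (G.op u (G.op x (fun i => (m i : ℝ)))) := by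
    have h0 : G.op u (G.op x (fun i => (m i : ℝ))) = G.op (G.op u x) (fun i => (m i : ℝ)) :=
      (G.assoc _ _ _).symm
    rw [h0, hF.2]
  have hbox : G.op x (fun i => (m i : ℝ)) ∈ Set.Icc (0 : Fin d → ℝ) 1 :=
    ⟨fun i => (hm i).1, fun i => (hm i).2⟩
  have hu1 : u ∈ Set.Icc (-1 : Fin d → ℝ) 1 := by
    constructor
    · intro i
      have h1 := (abs_le.mp ((hu i).trans (min_le_right _ _))).1
      simpa using h1
    · intro i
      have h1 := (abs_le.mp ((hu i).trans (min_le_right _ _))).2
      simpa using h1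
  have h01 : (0 : Fin d → ℝ) ∈ Set.Icc (-1 : Fin d → ℝ) 1 := by
    constructor
    · intro i
      simp
    · intro i
      simp
  rw [e1, e2, ← dist_eq_norm]
  refine h (u, _) ⟨hu1, hbox⟩ (0, _) ⟨h01, hbox⟩ ?_
  rw [Prod.dist_eq, dist_self]
  apply max_le _ hδ.le
  rw [dist_zero_right, pi_norm_le_iff_of_nonneg hδ.le]
  intro i
  rw [Real.norm_eq_abs]
  exact (hu i).trans (min_le_left _ _)

theorem t_UNIF : S_UNIF := by
  intro d G F hF
  constructor
  · obtain ⟨B, hB⟩ := (isCompact_Icc (a := (0 : Fin d → ℝ)) (b := 1)).exists_bound_of_continuousOn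
      hF.1.continuousOn
    refine ⟨B, fun x => ?_⟩
    obtain ⟨m, hm⟩ := exists_int G x
    rw [← hF.2 x m]
    exact hB _ ⟨fun i => (hm i).1, fun i => (hm i).2⟩
  · intro ε hε
    obtain ⟨δ, hδ, hunif⟩ := left_unif G F hF ε hε
    choose Ci Di hP using fun i : Fin d => poly_bound (G.P i)
    obtain ⟨C0, hC0⟩ : ∃ C0 : ℕ, C0 = ∑ i, Ci i := ⟨_, rfl⟩
    obtain ⟨D0, hD0⟩ : ∃ D0 : ℕ, D0 = ∑ i, Di i := ⟨_, rfl⟩
    have hCi : ∀ i, Ci i ≤ C0 := fun i => hC0 ▸
      Finset.single_le_sum (f := Ci) (fun _ _ => Nat.zero_le _) (Finset.mem_univ i)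
    have hDi : ∀ i, Di i ≤ D0 := fun i => hD0 ▸
      Finset.single_le_sum (f := Di) (fun _ _ => Nat.zero_le _) (Finset.mem_univ i)
    obtain ⟨C, hC⟩ : ∃ C : ℕ, C = ⌈((1 : ℝ) + C0) ^ d * (1 + 1 / δ)⌉₊ := ⟨_, rfl⟩
    have hC1 : ((1 : ℝ) + C0) ^ d * (1 + 1 / δ) ≤ C := hC ▸ Nat.le_ceil _
    have hpow0 : (0 : ℝ) < (1 + (C0 : ℝ)) ^ d := by positivity
    have hCpos : (0 : ℝ) < C := lt_of_lt_of_le (by positivity) hC1
    refine ⟨C, D0 * d, fun M hM y y' hy hy' hyy => ?_⟩
    have hM0 : 0 < M := by linarith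
    obtain ⟨η, hη⟩ : ∃ η : ℝ, η = 1 / (C * M ^ (D0 * d)) := ⟨_, rfl⟩
    have hη0 : 0 < η := by rw [hη]; positivity
    have hyη : ∀ k, |y' k - y k| ≤ η := by
      intro k
      rw [hη, le_div_iff₀ (by positivity), abs_sub_comm]
      exact hyy k
    obtain ⟨B, hB⟩ : ∃ B : ℝ, B = 1 + C0 * M ^ D0 := ⟨_, rfl⟩
    have hB1 : 1 ≤ B := by
      rw [hB]
      have : (0 : ℝ) ≤ C0 * M ^ D0 := by positivity
      linarith
    have hBle : B ≤ (1 + C0) * M ^ D0 := by
      rw [hB]
      have : 1 ≤ M ^ D0 := one_le_pow₀ hM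
      nlinarith [Nat.cast_nonneg (α := ℝ) C0]
    have hBd : η * B ^ d ≤ 1 / (1 + 1 / δ) := by
      have h1 : B ^ d ≤ (1 + (C0 : ℝ)) ^ d * M ^ (D0 * d) := by
        calc B ^ d ≤ ((1 + C0) * M ^ D0) ^ d := by gcongr
          _ = _ := by rw [mul_pow, ← pow_mul]
      rw [hη, div_mul_eq_mul_div, one_mul, div_le_div_iff₀ (by positivity) (by positivity), one_mul]
      calc B ^ d * (1 + 1 / δ) ≤ ((1 + (C0 : ℝ)) ^ d * M ^ (D0 * d)) * (1 + 1 / δ) := by gcongr
        _ = ((1 + (C0 : ℝ)) ^ d * (1 + 1 / δ)) * M ^ (D0 * d) := by ring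
        _ ≤ C * M ^ (D0 * d) := by gcongr
    have hBd1 : η * B ^ d ≤ 1 := hBd.trans (by
      rw [div_le_one (by positivity)]
      have : 0 ≤ 1 / δ := by positivity
      linarith)
    have hBdδ : η * B ^ d ≤ δ := hBd.trans (by
      rw [div_le_iff₀ (by positivity), mul_add, mul_one, mul_one_div_cancel hδ.ne']
      linarith)
    obtain ⟨u, hu⟩ := exists_left G y y'
    have hub : ∀ n : ℕ, ∀ i : Fin d, i.val < n → |u i| ≤ η * B ^ (i.val + 1) := by
      intro n
      induction n with
      | zero => exact fun i hi => absurd hi (Nat.not_lt_zero _)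
      | succ n ih =>
        intro i hi
        have hprev : ∀ j : Fin d, j < i → |u j| ≤ η * B ^ i.val := by
          intro j hj
          refine (ih j (by have := Fin.lt_def.mp hj; omega)).trans ?_
          gcongr
          exact Fin.lt_def.mp hj
        have hBi : η * B ^ i.val ≤ 1 := by
          refine le_trans ?_ hBd1
          gcongr
          exact i.2.le
        obtain ⟨w, hw⟩ : ∃ w : Fin d → ℝ, w = fun j => if j < i then u j else 0 := ⟨_, rfl⟩
        have hwb : ∀ j, |w j| ≤ η * B ^ i.val := by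
          intro j
          rw [hw]
          simp only
          split_ifs with hj
          · exact hprev j hj
          · rw [abs_zero]; positivity
        have hev : eval (Sum.elim u y) (G.P i) = eval (Sum.elim w y) (G.P i) := by
          refine eval_congr_lt G i ?_ (fun _ _ => rfl)
          intro j hj
          rw [hw]
          simp [hj]
        have hz1 : ∀ v, |(Sum.elim w y : Fin d ⊕ Fin d → ℝ) v| ≤ M := by
          rintro (j | j)
          · exact ((hwb j).trans hBi).trans hM
          · exact hy j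
        have hz2 : ∀ v, |(Sum.elim 0 y : Fin d ⊕ Fin d → ℝ) v| ≤ M := by
          rintro (j | j)
          · simp only [Sum.elim_inl, Pi.zero_apply, abs_zero]
            exact hM0.le
          · exact hy j
        have hdiff := (hP i M hM _ _ hz1 hz2).2 (η * B ^ i.val) (by positivity) (by
          rintro (j | j)
          · simp only [Sum.elim_inl, Pi.zero_apply, sub_zero]
            exact hwb j
          · simp only [Sum.elim_inr, sub_self, abs_zero]
            positivity)
        rw [eval_zero_left, sub_zero, ← hev] at hdiff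
        have hCM : (Ci i : ℝ) * M ^ Di i ≤ C0 * M ^ D0 := by
          have h1 : (Ci i : ℝ) ≤ C0 := by exact_mod_cast hCi i
          have h2 : M ^ Di i ≤ M ^ D0 := pow_le_pow_right₀ hM (hDi i)
          gcongr
        calc |u i| = |(y' i - y i) - eval (Sum.elim u y) (G.P i)| := by rw [← hu i]
          _ ≤ |y' i - y i| + |eval (Sum.elim u y) (G.P i)| := abs_sub _ _
          _ ≤ η + Ci i * M ^ Di i * (η * B ^ i.val) := add_le_add (hyη i) hdiff
          _ ≤ η * B ^ i.val + C0 * M ^ D0 * (η * B ^ i.val) := by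
              apply add_le_add
              · exact le_mul_of_one_le_right hη0.le (one_le_pow₀ hB1)
              · gcongr
          _ = η * B ^ (i.val + 1) := by
              rw [pow_succ, hB]
              ring
    have huδ : ∀ k, |u k| ≤ δ := by
      intro k
      refine (hub d k k.2).trans (le_trans ?_ hBdδ)
      gcongr
      exact k.2
    have hop : G.op u y = y' := by
      funext i
      rw [op_apply, hu i]
      have := hu i
      nth_rewrite 1 [← hu i]
      linarith
    have := hunif y u huδ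
    rw [hop] at this
    rw [norm_sub_rev]
    exact this

end Pool.Agent.U103.MC
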